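import Pool.Agent.Helper65.CL.Defs
import Pool.Agent.Helper17.BR.Field
import Pool.Agent.Helper45.BR.Base
import Pool.Agent.Helper82.BR.Compl

/-!
# BR: one extension which splits all algebras of degree `m` with representations at the bad places
-/

set_option autoImplicit false

namespace Pool.Agent.Helper47.BR

open NumberField IsDedekindDomain Pool.Agent.Helper4.CB Pool.Agent.Helper65.CL TensorProduct

/-- local splitting by residue degrees (block LOC) -/
def LocNF : Prop :=
  ∀ (K L : Type) [Field K] [NumberField K] [Field L] [NumberField L] [Algebra K L]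
    (v : HeightOneSpectrum (𝓞 K)) (w : HeightOneSpectrum (𝓞 L)) [w.asIdeal.LiesOver v.asIdeal]
    (f m : ℕ), 0 < m → 0 < f → m ∣ f → Ideal.absNorm w.asIdeal = Ideal.absNorm v.asIdeal ^ f →
    ∀ (A : Type) [Ring A] [Algebra K A] [Algebra.IsCentral K A] [IsSimpleRing A]
      [Module.Finite K A], Module.finrank K A = m ^ 2 →
      Nonempty (A →ₐ[K] Matrix (Fin m) (Fin m) (w.adicCompletion L))

/-- global splitting (block GLOB) -/
def GlobNF : Prop :=
  ∀ (L : Type) [Field L] [NumberField L], (∀ w : InfinitePlace L, w.IsComplex) →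
    ∀ m : ℕ, 0 < m → ∃ (L' : Type) (_ : Field L') (_ : NumberField L') (_ : Algebra L L'),
      ∀ (A : Type) [Ring A] [Algebra L A] [Algebra.IsCentral L A] [IsSimpleRing A]
        [Module.Finite L A], Module.finrank L A = m ^ 2 →
        (∀ w : HeightOneSpectrum (𝓞 L),
          Nonempty (A →ₐ[L] Matrix (Fin m) (Fin m) (w.adicCompletion L))) →
        Nonempty (A →ₐ[L] Matrix (Fin m) (Fin m) L')

theorem complex_of_root {L : Type} [Field L] [NumberField L] {n : ℕ} (hn : 2 < n)
    (h : ∃ ζ : L, IsPrimitiveRoot ζ n) (w : InfinitePlace L) : w.IsComplex := by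
  obtain ⟨ζ, hζ⟩ := h
  have h1 := NumberField.InfinitePlace.IsPrimitiveRoot.nrRealPlaces_eq_zero_of_two_lt hn hζ
  exact (nrRealPlaces_eq_zero_iff.1 h1).isComplex w

/-- representations descend along `A → L ⊗ A` -/
theorem rep_restrict {K L F A : Type} [Field K] [Field L] [Algebra K L] [Field F] [Algebra L F]
    [Algebra K F] [IsScalarTower K L F] [Ring A] [Algebra K A] {m : ℕ}
    (h : Nonempty ((L ⊗[K] A) →ₐ[L] Matrix (Fin m) (Fin m) F)) :
    Nonempty (A →ₐ[K] Matrix (Fin m) (Fin m) F) := by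
  obtain ⟨φ⟩ := h
  exact ⟨(φ.restrictScalars K).comp Algebra.TensorProduct.includeRight⟩

/-- representations extend along `A → L ⊗ A` -/
theorem rep_extend {K L F A : Type} [Field K] [Field L] [Algebra K L] [Field F] [Algebra L F]
    [Algebra K F] [IsScalarTower K L F] [Ring A] [Algebra K A] {m : ℕ}
    (h : Nonempty (A →ₐ[K] Matrix (Fin m) (Fin m) F)) :
    Nonempty ((L ⊗[K] A) →ₐ[L] Matrix (Fin m) (Fin m) F) := by
  obtain ⟨φ⟩ := h
  exact ⟨Algebra.TensorProduct.lift (Algebra.ofId L _) φ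
    (fun x y => (Algebra.commutes x (φ y)))⟩

/-- degree one -/
theorem rep_one {K A F : Type} [Field K] [Ring A] [Algebra K A] [Field F] [Algebra K F]
    [Nontrivial A] (h : Module.finrank K A = 1) :
    Nonempty (A →ₐ[K] Matrix (Fin 1) (Fin 1) F) := by
  have h1 : Function.Bijective (algebraMap K A) := by
    refine ⟨(algebraMap K A).injective, ?_⟩
    rw [Algebra.surjective_algebraMap_iff, eq_comm]
    exact Subalgebra.bot_eq_top_iff_finrank_eq_one.2 h
  let e : K ≃ₐ[K] A := AlgEquiv.ofBijective (Algebra.ofId K A) h1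
  exact ⟨(Algebra.ofId K _).comp e.symm.toAlgHom⟩

/-- **ALG** -/
theorem alg_br (hloc : LocNF) (hglob : GlobNF) (K : Type) [Field K] [NumberField K] (m J : ℕ)
    (hm : 0 < m) (hζ : ∀ l : ℕ, l.Prime → l ∣ m → ∃ ζ : K, IsPrimitiveRoot ζ l)
    (h4 : 2 ∣ m → ∃ i : K, IsPrimitiveRoot i 4) :
    ∃ (L' : Type) (_ : Field L') (_ : NumberField L') (_ : Algebra K L'),
      ∀ (A : Type) [Ring A] [Algebra K A] [Algebra.IsCentral K A] [IsSimpleRing A]
        [Module.Finite K A], Module.finrank K A = m ^ 2 →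
        (∀ p : Pl K, Bad m.primeFactors J p →
          Nonempty (A →ₐ[K] Matrix (Fin m) (Fin m) (p.adicCompletion K))) →
        Nonempty (A →ₐ[K] Matrix (Fin m) (Fin m) L') := by
  by_cases hm1 : m = 1
  · subst hm1
    refine ⟨K, inferInstance, inferInstance, inferInstance, ?_⟩
    intro A _ _ _ _ _ hA _
    exact rep_one (by simpa using hA)
  obtain ⟨L, iL, nL, aL, hfin, hroot, hres⟩ :=
    Pool.Agent.Helper17.BR.exists_field K m J hm hζ h4
  have hL : ∀ w : InfinitePlace L, w.IsComplex := by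
    obtain ⟨l, hl, hlm⟩ := Nat.exists_prime_and_dvd hm1
    refine complex_of_root (n := l ^ (J + m)) ?_ (hroot l hl hlm)
    have h2 : 2 ≤ m := by omega
    calc 2 < 2 ^ 2 := by norm_num
      _ ≤ l ^ 2 := Nat.pow_le_pow_left hl.two_le 2
      _ ≤ l ^ (J + m) := Nat.pow_le_pow_right hl.pos (by omega)
  obtain ⟨L', iL', nL', aL', hL'⟩ := hglob L hL m hm
  let aK : Algebra K L' := ((algebraMap L L').comp (algebraMap K L)).toAlgebra
  have htow : IsScalarTower K L L' := IsScalarTower.of_algebraMap_eq fun _ => rfl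
  refine ⟨L', iL', nL', aK, ?_⟩
  intro A _ _ _ _ _ hA hbad
  have h1 : Algebra.IsCentral L (L ⊗[K] A) := Pool.Agent.Helper45.BR.isCentral_baseChange K L A
  have h2 : IsSimpleRing (L ⊗[K] A) := Pool.Agent.Helper45.BR.isSimple_baseChange K L A
  have h3 : Module.finrank L (L ⊗[K] A) = m ^ 2 := by
    rw [Module.finrank_baseChange, hA]
  refine rep_restrict (L := L) (hL' (L ⊗[K] A) h3 ?_)
  intro w
  by_cases hb : Bad m.primeFactors J (Pool.Agent.Helper82.BR.below K w)
  · exact Pool.Agent.Helper82.BR.rep_up (Pool.Agent.Helper82.BR.below K w) w (hbad _ hb)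
  · have h5 : ∀ l : ℕ, l.Prime → l ∣ m →
        ¬ Ideal.absNorm (w.asIdeal.comap (algebraMap (𝓞 K) (𝓞 L))) ≡ 1 [MOD l ^ J] := by
      intro l hl hlm hc
      exact hb ⟨l, Nat.mem_primeFactors.2 ⟨hl, hlm, hm.ne'⟩, hc⟩
    obtain ⟨f, hmf, hf0, hf⟩ := hres w.asIdeal w.isPrime w.ne_bot h5
    exact rep_extend (hloc K L (Pool.Agent.Helper82.BR.below K w) w f m hm hf0 hmf hf A hA)

end Pool.Agent.Helper47.BR
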