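import Pool.Agent.Helper47.BR.EA
import Pool.Agent.Helper56.BR.LocNF

/-!
# BR: families of Azumaya algebras, final forms
-/

set_option autoImplicit false

namespace Pool.Agent.Helper47.BR

open NumberField IsDedekindDomain Pool.Agent.Helper4.CB Pool.Agent.Helper65.CL TensorProduct
  IsLocalRing AlgebraicGeometry CategoryTheory Pool.Agent.Helper15 Pool.Agent.Helper65.CB
open Pool.Agent.Helper69.CB (vl TriDeg)
open Pool.Agent.Helper35.BR (HomRing)

/-- **ALG** -/
theorem alg_split (K : Type) [Field K] [NumberField K] (m J : ℕ)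
    (hm : 0 < m) (hζ : ∀ l : ℕ, l.Prime → l ∣ m → ∃ ζ : K, IsPrimitiveRoot ζ l)
    (h4 : 2 ∣ m → ∃ i : K, IsPrimitiveRoot i 4) :
    ∃ (L' : Type) (_ : Field L') (_ : NumberField L') (_ : Algebra K L'),
      ∀ (A : Type) [Ring A] [Algebra K A] [Algebra.IsCentral K A] [IsSimpleRing A]
        [Module.Finite K A], Module.finrank K A = m ^ 2 →
        (∀ p : Pl K, Bad m.primeFactors J p →
          Nonempty (A →ₐ[K] Matrix (Fin m) (Fin m) (p.adicCompletion K))) →
        Nonempty (A →ₐ[K] Matrix (Fin m) (Fin m) L') :=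
  alg_br Pool.Agent.Helper56.BR.locNF globNF K m J hm hζ h4

/-- **BR over open subsets of the affine space** -/
theorem t_br (K : Type) [Field K] [NumberField K] {n : ℕ}
    (P : MvPolynomial (Fin n) K) (hP0 : P ≠ 0)
    (hP : ∀ Q : MvPolynomial (Fin n) (AlgebraicClosure K), Irreducible Q →
      Q ∣ MvPolynomial.map (algebraMap K (AlgebraicClosure K)) P → TriDeg 3 Q)
    (R : Type) [CommRing R] [IsDomain R] [Algebra (MvPolynomial (Fin n) K) R] [Algebra K R]
    [IsScalarTower K (MvPolynomial (Fin n) K) R] [IsLocalization.Away P R]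
    {r : ℕ} (A : Fin r → Type) [∀ i, Ring (A i)] [∀ i, Algebra R (A i)] [∀ i, IsAzumaya R (A i)]
    (m : Fin r → ℕ) (hm0 : ∀ i, 0 < m i)
    (hm : ∀ i, Module.finrank (FractionRing R) (FractionRing R ⊗[R] A i) = m i ^ 2) :
    ∃ δ : R, δ ≠ 0 ∧ ∀ (X : Scheme.{0}) (s : X ⟶ Spec (CommRingCat.of K)),
      DominatedOver K X
        (Spec (CommRingCat.of (Localization.Away (algebraMap R (HomRing R A m) δ)))) s
        (Spec.map (CommRingCat.ofHom
          (algebraMap K (Localization.Away (algebraMap R (HomRing R A m) δ))))) →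
      PotentiallyDense K X s :=
  t_br_away Pool.Agent.Helper56.BR.locNF K P hP0 hP R A m hm0 hm

end Pool.Agent.Helper47.BR
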