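import Pool.Agent.Helper65.CL.Defs
import Pool.Agent.Helper35.CB.Final

/-!
# BR: arbitrary Azumaya algebras, definitions
-/

set_option autoImplicit false

namespace Pool.Agent.Helper47.BR

open NumberField Pool.Agent.Helper4.CB Pool.Agent.Helper69.CB Pool.Agent.Helper65.CL TensorProduct

/-- the `K`-algebra `A` has a representation of degree `m` over `F` -/
def Rep (K A F : Type) [Field K] [Ring A] [Algebra K A] [Field F] [Algebra K F] (m : ℕ) : Prop :=
  Nonempty (A →ₐ[K] Matrix (Fin m) (Fin m) F)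

/-- central simple of degree `m` -/
structure CS (K A : Type) [Field K] [Ring A] [Algebra K A] (m : ℕ) : Prop where
  pos : 1 ≤ m
  simple : IsSimpleRing A
  central : Algebra.IsCentral K A
  dim : Module.finrank K A = m ^ 2

/-- the completion of `L` at a finite place -/
abbrev Cw (L : Type) [Field L] [NumberField L] (w : Pl L) : Type := w.adicCompletion L

/-- the absolute value at a finite place -/
noncomputable def nw {L : Type} [Field L] [NumberField L] (w : Pl L) (x : L) : ℝ :=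
  ‖algebraMap L (Cw L w) x‖

/-- `w` is over `p` -/
def Over {K L : Type} [Field K] [NumberField K] [Field L] [NumberField L] [Algebra K L] (p : Pl K)
    (w : Pl L) : Prop := w.asIdeal.comap (algebraMap (𝓞 K) (𝓞 L)) = p.asIdeal

/-- a complete field with a discrete valuation and residue field with `q` elements -/
structure LF (F : Type) [NormedField F] (q : ℕ) : Prop where
  ultra : ∀ x y : F, ‖x + y‖ ≤ max ‖x‖ ‖y‖
  complete : CompleteSpace F
  two_le : 2 ≤ q
  value : ∀ x : F, x ≠ 0 → ∃ n : ℤ, ‖x‖ = (q : ℝ) ^ n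
  unif : ∃ π : F, ‖π‖ = (q : ℝ)⁻¹
  res : ∃ R : Finset F, R.card = q ∧ (∀ r ∈ R, ‖r‖ ≤ 1) ∧
    (∀ r ∈ R, ∀ s ∈ R, r ≠ s → ‖r - s‖ = 1) ∧ ∀ x : F, ‖x‖ ≤ 1 → ∃ r ∈ R, ‖x - r‖ < 1

/-- an absolute value on the division algebra `D` which extends the one of `F` -/
structure DN {F : Type} [NormedField F] (q : ℕ) {D : Type} [DivisionRing D] [Algebra F D]
    (N : D → ℝ) : Prop where
  nonneg : ∀ x, 0 ≤ N x
  zero_iff : ∀ x, N x = 0 ↔ x = 0
  mul : ∀ x y, N (x * y) = N x * N y
  add : ∀ x y, N (x + y) ≤ max (N x) (N y)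
  ext : ∀ c : F, N (algebraMap F D c) = ‖c‖
  disc : ∃ e : ℕ, 1 ≤ e ∧ ∀ x, x ≠ 0 → ∃ n : ℤ, N x ^ e = (q : ℝ) ^ n

section Coord

variable {L D F : Type} [Field L] [Ring D] [Algebra L D] [Field F] [Algebra L F] {d : ℕ}

/-- the index type of bases of algebras of degree `d` -/
abbrev Ix (d : ℕ) : Type := Fin d × Fin d

/-- the matrix of a representation: the entries of the images of the basis elements -/
noncomputable def cm (ρ : D →ₐ[L] Matrix (Fin d) (Fin d) F) (b : Module.Basis (Ix d) L D) :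
    Matrix (Ix d) (Ix d) F := Matrix.of fun s j => ρ (b j) s.1 s.2

/-- the matrix of the trace form -/
noncomputable def tm (b : Module.Basis (Ix d) L D) : Matrix (Ix d) (Ix d) L :=
  Matrix.of fun i j => (Algebra.leftMulMatrix b (b i * b j)).trace

end Coord

/-- `B` is good for the basis `b`: outside `B` the structure constants are integral, `d` and the
discriminant are units -/
structure Gd {L D : Type} [Field L] [NumberField L] [Ring D] [Algebra L D] {d : ℕ}
    (b : Module.Basis (Ix d) L D) (B : ℕ) : Prop where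
  pos : 1 ≤ B
  str : ∀ w : Pl L, (B : 𝓞 L) ∉ w.asIdeal → ∀ i j k, nw w (b.repr (b i * b j) k) ≤ 1
  deg : ∀ w : Pl L, (B : 𝓞 L) ∉ w.asIdeal → nw w (d : L) = 1
  disc : ∀ w : Pl L, (B : 𝓞 L) ∉ w.asIdeal → nw w (tm b).det = 1

/-- an Azumaya structure over the subring `O` of `K` on the `K`-algebra `A` -/
def AzInt {K : Type} [Field K] (O : Subring K) (A : Type) [Ring A] [Algebra K A] : Prop :=
  ∃ (N : ℕ) (g : Fin N → A) (f : Fin N → A →ₗ[K] K),
    (∀ x, x = ∑ i, f i x • g i) ∧ (∀ i j, f i (g j) ∈ O) ∧ (∀ i j k, f k (g i * g j) ∈ O) ∧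
    (∀ k, f k 1 ∈ O) ∧
    ∀ i j, ∃ c : Fin N → Fin N → K, (∀ s t, c s t ∈ O) ∧
      ∀ x, ∑ s, ∑ t, c s t • (g s * x * g t) = f i x • g j

/-- the valuation ring of a finite place -/
noncomputable abbrev Oint {K : Type} [Field K] [NumberField K] (p : Pl K) : Subring K :=
  (p.valuation K).integer

/-- points of `R` over `M` integral at the bad places -/
def SPAt (K R M : Type) [Field K] [CommRing R] [Algebra K R] [Field M] [NumberField M]
    [Algebra K M] (Λ : Finset ℕ) : Prop :=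
  ∀ G : Finset R, ∃ J : ℕ, 2 ≤ J ∧ ∀ f : R, f ≠ 0 → ∃ φ : R →ₐ[K] M, φ f ≠ 0 ∧
    ∀ p : Pl M, Bad Λ J p → ∀ g ∈ G, vl p (φ g) ≤ 1

/-- **SP**: the sieve property of the `K`-algebra `R` -/
def SP (K R : Type) [Field K] [NumberField K] [CommRing R] [Algebra K R] : Prop :=
  ∀ Λ : Finset ℕ, (∀ l ∈ Λ, l.Prime) → ∀ (M0 : Type) [Field M0] [NumberField M0] [Algebra K M0],
    ∃ (M : Type) (_ : Field M) (_ : NumberField M) (_ : Algebra M0 M) (_ : Algebra K M)
      (_ : IsScalarTower K M0 M), SPAt K R M Λ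

section Hom

variable {R : Type} [CommRing R] {r : ℕ} (m : Fin r → ℕ) (A : Fin r → Type) [∀ i, Ring (A i)]
  [∀ i, Algebra R (A i)]

/-- the variables: the entries of the images of the elements of the algebras -/
abbrev HIx : Type := Σ i : Fin r, A i × Fin (m i) × Fin (m i)

/-- the relations of the homomorphisms of `R`-algebras `A i → M_(m i)`, over an `R`-algebra `S` -/
def HRel (S : Type) [CommRing S] [Algebra R S] : Set (MvPolynomial (HIx m A) S) :=
  {x | (∃ (i : Fin r) (a b : A i) (s t : Fin (m i)), x = MvPolynomial.X ⟨i, a + b, s, t⟩ -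
      MvPolynomial.X ⟨i, a, s, t⟩ - MvPolynomial.X ⟨i, b, s, t⟩) ∨
    (∃ (i : Fin r) (c : R) (a : A i) (s t : Fin (m i)), x = MvPolynomial.X ⟨i, c • a, s, t⟩ -
      MvPolynomial.C (algebraMap R S c) * MvPolynomial.X ⟨i, a, s, t⟩) ∨
    (∃ (i : Fin r) (a b : A i) (s t : Fin (m i)), x = MvPolynomial.X ⟨i, a * b, s, t⟩ -
      ∑ u, MvPolynomial.X ⟨i, a, s, u⟩ * MvPolynomial.X ⟨i, b, u, t⟩) ∨
    (∃ (i : Fin r) (s t : Fin (m i)), x = MvPolynomial.X ⟨i, 1, s, t⟩ -
      MvPolynomial.C (if s = t then 1 else 0))}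

/-- the ring which represents the families of homomorphisms of `R`-algebras `A i → M_(m i)`, over
the `R`-algebra `S` -/
abbrev HRing (S : Type) [CommRing S] [Algebra R S] : Type :=
  MvPolynomial (HIx m A) S ⧸ Ideal.span (HRel (R := R) m A S)

end Hom

end Pool.Agent.Helper47.BR
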