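import Pool.Agent.Helper47.BR.Fin
import Pool.Agent.Helper28.BR.Good
import Pool.Agent.Helper28.BR.FinAz
import Pool.Agent.Helper8.BR.Glob
import Pool.Agent.Helper35.BR.End
import Pool.Agent.Helper65.BR.Ext

/-!
# BR: families of Azumaya algebras over rings with sieve points
-/

set_option autoImplicit false

namespace Pool.Agent.Helper47.BR

open NumberField IsDedekindDomain Pool.Agent.Helper4.CB Pool.Agent.Helper65.CL TensorProduct
  IsLocalRing AlgebraicGeometry CategoryTheory Pool.Agent.Helper15 Pool.Agent.Helper65.CB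
open Pool.Agent.Helper69.CB (vl TriDeg)
open Pool.Agent.Helper35.BR (HomRing)

theorem globNF : GlobNF := fun L _ _ hL m hm => Pool.Agent.Helper8.BR.glob L hL m hm

theorem goodNF : GoodNF := fun _ _ _ _ _ _ _ _ _ _ _ _ _ _ _ _ h m hm hB =>
  Pool.Agent.Helper28.BR.good_local h m hm hB

/-- **BR, abstract form** -/
theorem t_br_abs (hloc : LocNF) (K : Type) [Field K] [NumberField K] {R : Type} [CommRing R]
    [IsDomain R] [Algebra K R]
    (hSP : ∀ Λ : Finset ℕ, (∀ l ∈ Λ, l.Prime) → ∀ (M0 : Type) [Field M0] [NumberField M0]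
      [Algebra K M0], ∃ (M : Type) (_ : Field M) (_ : NumberField M) (_ : Algebra K M)
      (_ : Algebra M0 M) (_ : IsScalarTower K M0 M), ∀ G : Finset R, ∃ J : ℕ, ∀ f : R, f ≠ 0 →
        ∃ φ : R →ₐ[K] M, φ f ≠ 0 ∧ ∀ p : Pl M, Bad Λ J p → ∀ g ∈ G, vl p (φ g) ≤ 1)
    {r : ℕ} (A : Fin r → Type) [∀ i, Ring (A i)] [∀ i, Algebra R (A i)] [∀ i, IsAzumaya R (A i)]
    (m : Fin r → ℕ) (hm0 : ∀ i, 0 < m i)
    (hm : ∀ i, Module.finrank (FractionRing R) (FractionRing R ⊗[R] A i) = m i ^ 2) :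
    ∃ δ : R, δ ≠ 0 ∧ ∀ (X : Scheme.{0}) (s : X ⟶ Spec (CommRingCat.of K)),
      DominatedOver K X
        (Spec (CommRingCat.of (Localization.Away (algebraMap R (HomRing R A m) δ)))) s
        (Spec.map (CommRingCat.ofHom
          (algebraMap K (Localization.Away (algebraMap R (HomRing R A m) δ))))) →
      PotentiallyDense K X s := by
  classical
  let e : ℕ := 4 * ∏ i, m i
  have he : e ≠ 0 := mul_ne_zero (by norm_num) (Finset.prod_ne_zero_iff.2 fun i _ => (hm0 i).ne')
  have : NeZero e := ⟨he⟩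
  let M0 : Type := CyclotomicField e K
  have hM0 : NumberField M0 := IsCyclotomicExtension.numberField {e} K M0
  obtain ⟨M, iM, nM, aM, aM0, htow, hM⟩ := hSP (Finset.univ.biUnion fun i => (m i).primeFactors) (by
    intro l hl
    obtain ⟨i, -, hi⟩ := Finset.mem_biUnion.1 hl
    exact Nat.prime_of_mem_primeFactors hi) M0
  have hroot : ∀ k : ℕ, k ∣ e → ∃ ζ : M, IsPrimitiveRoot ζ k := by
    intro k hk
    have h1 := IsCyclotomicExtension.zeta_spec e K M0
    have h2 : IsPrimitiveRoot (algebraMap M0 M (IsCyclotomicExtension.zeta e K M0)) e :=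
      h1.map_of_injective (algebraMap M0 M).injective
    obtain ⟨c, hc⟩ := hk
    exact ⟨_, h2.pow (Nat.pos_of_ne_zero he) (by rw [mul_comm]; exact hc)⟩
  obtain ⟨L, iL, nL, aL, aKL, htL, hL⟩ := hpt_azumaya hloc globNF goodNF K M A m hm0
    (Finset.univ.biUnion fun i => (m i).primeFactors)
    (fun i => Finset.subset_biUnion_of_mem (fun i => (m i).primeFactors) (Finset.mem_univ i))
    hM hm
    (fun i l _ hli => hroot l (hli.trans ((Finset.dvd_prod_of_mem m (Finset.mem_univ i)).trans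
      (Dvd.intro_left 4 rfl))))
    (hroot 4 (Dvd.intro _ rfl))
  have hfin : FiniteDimensional K L := by
    have : IsScalarTower ℚ K L := inferInstance
    exact Module.Finite.right ℚ K L
  have hcs := fun i => Pool.Agent.Helper28.BR.spec_cs (A := A i) (m i) (hm0 i) (hm i)
    (FractionRing R)
  exact Pool.Agent.Helper35.BR.end_br K A m (fun i => (hcs i).2.1) (fun i => (hcs i).1) hm L hL

/-- **BR over open subsets of the affine space** -/
theorem t_br_away (hloc : LocNF) (K : Type) [Field K] [NumberField K] {n : ℕ}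
    (P : MvPolynomial (Fin n) K) (hP0 : P ≠ 0)
    (hP : ∀ Q : MvPolynomial (Fin n) (AlgebraicClosure K), Irreducible Q →
      Q ∣ MvPolynomial.map (algebraMap K (AlgebraicClosure K)) P → TriDeg 3 Q)
    (R : Type) [CommRing R] [IsDomain R] [Algebra (MvPolynomial (Fin n) K) R] [Algebra K R]
    [IsScalarTower K (MvPolynomial (Fin n) K) R] [IsLocalization.Away P R]
    {r : ℕ} (A : Fin r → Type) [∀ i, Ring (A i)] [∀ i, Algebra R (A i)] [∀ i, IsAzumaya R (A i)]
    (m : Fin r → ℕ) (hm0 : ∀ i, 0 < m i)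
    (hm : ∀ i, Module.finrank (FractionRing R) (FractionRing R ⊗[R] A i) = m i ^ 2) :
    ∃ δ : R, δ ≠ 0 ∧ ∀ (X : Scheme.{0}) (s : X ⟶ Spec (CommRingCat.of K)),
      DominatedOver K X
        (Spec (CommRingCat.of (Localization.Away (algebraMap R (HomRing R A m) δ)))) s
        (Spec.map (CommRingCat.ofHom
          (algebraMap K (Localization.Away (algebraMap R (HomRing R A m) δ))))) →
      PotentiallyDense K X s := by
  refine t_br_abs hloc K ?_ A m hm0 hm
  intro Λ hΛ M0 _ _ _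
  obtain ⟨M, iM, nM, aM, aM0, htow, hM⟩ :=
    Pool.Agent.Helper65.BR.points_away K P hP0 hP R Λ hΛ M0
  refine ⟨M, iM, nM, aM, aM0, htow, fun G => ?_⟩
  obtain ⟨J0, hJ0⟩ := hM G
  exact ⟨J0, hJ0 J0 le_rfl⟩

end Pool.Agent.Helper47.BR
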