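import Pool.Agent.Helper47.BR.Alg
import Pool.Agent.Helper28.BR.Azu
import Pool.Agent.Helper62.BR.GB
import Pool.Agent.Helper65.BR.Compl
import Pool.Agent.Helper82.BR.P0
import Pool.Agent.Helper83.BR.Defs
import Pool.Agent.Helper35.BR.Defs

/-!
# BR: points of `R` at which finitely many Azumaya algebras are split by one extension
-/

set_option autoImplicit false

namespace Pool.Agent.Helper47.BR

open NumberField IsDedekindDomain Pool.Agent.Helper4.CB Pool.Agent.Helper65.CL TensorProduct
  IsLocalRing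
open Pool.Agent.Helper69.CB (vl)
open Pool.Agent.Helper28.BR (Az AzInt)

/-- good reduction implies a representation (block GOOD) -/
def GoodNF : Prop :=
  ∀ (O F B : Type) [CommRing O] [IsDomain O] [IsDiscreteValuationRing O]
    [IsAdicComplete (maximalIdeal O) O] [Finite (ResidueField O)]
    [Field F] [Algebra O F] [IsFractionRing O F] [Ring B] [Algebra F B] (N : ℕ) (g : Fin N → B)
    (f : Fin N → B →ₗ[F] F), AzInt O F B N g f → ∀ m : ℕ, 0 < m →
    Module.finrank F B = m ^ 2 → Nonempty (B →ₐ[F] Matrix (Fin m) (Fin m) F)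

section Rank

/-- the rank of a projective algebra at a point -/
theorem finrank_point {R : Type} [CommRing R] [IsDomain R] {A : Type} [AddCommGroup A] [Module R A]
    [Module.Finite R A] [Module.Projective R A] (F F' : Type) [Field F] [Algebra R F] [Field F']
    [Algebra R F'] :
    Module.finrank F (F ⊗[R] A) = Module.finrank F' (F' ⊗[R] A) := by
  have key : ∀ (E : Type) [Field E] [Algebra R E],
      Module.finrank E (E ⊗[R] A) = Module.rankAtStalk (R := R) A ⊥ := by
    intro E _ _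
    have h1 : Module.rankAtStalk (R := E) (E ⊗[R] A) ⊥ = Module.finrank E (E ⊗[R] A) := by
      rw [Module.rankAtStalk_eq_finrank_of_free]
      rfl
    rw [← h1, Module.rankAtStalk_baseChange]
    exact (Module.rankAtStalk_eq_of_le_of_finite_of_flat A bot_le).symm
  rw [key F, key F']

end Rank

section Tensor

variable {R M F A : Type} [CommRing R] [Field M] [Algebra R M] [Field F] [Algebra M F]
  [Algebra R F] [IsScalarTower R M F] [Ring A] [Algebra R A] {m : ℕ}

theorem rep_of_tensor (h : Nonempty ((M ⊗[R] A) →ₐ[M] Matrix (Fin m) (Fin m) F)) :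
    Nonempty (A →ₐ[R] Matrix (Fin m) (Fin m) F) := by
  obtain ⟨φ⟩ := h
  exact ⟨(φ.restrictScalars R).comp Algebra.TensorProduct.includeRight⟩

theorem rep_to_tensor (h : Nonempty (A →ₐ[R] Matrix (Fin m) (Fin m) F)) :
    Nonempty ((M ⊗[R] A) →ₐ[M] Matrix (Fin m) (Fin m) F) := by
  obtain ⟨φ⟩ := h
  exact ⟨Algebra.TensorProduct.lift (Algebra.ofId M _) φ
    (fun x y => (Algebra.commutes x (φ y)))⟩

end Tensor

/-- **GOOD for Azumaya algebras** -/
theorem rep_good (hgood : GoodNF) {R A : Type} [CommRing R] [Ring A] [Algebra R A] (haz : Az R A)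
    (m : ℕ) (hm : 0 < m) : ∃ G : Finset R, ∀ (M : Type) [Field M] [NumberField M] [Algebra R M],
      Module.finrank M (M ⊗[R] A) = m ^ 2 → ∀ p : Pl M,
      (∀ g ∈ G, vl p (algebraMap R M g) ≤ 1) →
      Nonempty ((M ⊗[R] A) →ₐ[M] Matrix (Fin m) (Fin m) (p.adicCompletion M)) := by
  obtain ⟨G, hG⟩ := Pool.Agent.Helper28.BR.exists_spec haz
  refine ⟨G, fun M _ _ _ hdim p hp => ?_⟩
  let aR : Algebra R (p.adicCompletion M) :=
    ((algebraMap M (p.adicCompletion M)).comp (algebraMap R M)).toAlgebra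
  have htow : IsScalarTower R M (p.adicCompletion M) := IsScalarTower.of_algebraMap_eq fun _ => rfl
  have hac : IsAdicComplete (maximalIdeal (p.adicCompletionIntegers M))
    (p.adicCompletionIntegers M) := Pool.Agent.Helper65.BR.isAdicComplete p
  have hfin : Finite (ResidueField (p.adicCompletionIntegers M)) :=
    Pool.Agent.Helper65.BR.finite_residueField p
  obtain ⟨N, g, f, hAz⟩ := hG (p.adicCompletionIntegers M) (p.adicCompletion M) (by
    intro r hr
    have h1 : algebraMap M (p.adicCompletion M) (algebraMap R M r) ∈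
        p.adicCompletionIntegers M := by
      rw [HeightOneSpectrum.mem_adicCompletionIntegers, Pool.Agent.Helper82.BR.valued_algebraMap]
      exact hp r hr
    exact ⟨⟨_, h1⟩, rfl⟩)
  have h2 : Module.finrank (p.adicCompletion M) (p.adicCompletion M ⊗[R] A) = m ^ 2 := by
    rw [← hdim, ← Module.finrank_baseChange (R := p.adicCompletion M) (S := M) (M' := M ⊗[R] A)]
    exact (TensorProduct.AlgebraTensorModule.cancelBaseChange R M (p.adicCompletion M)
      (p.adicCompletion M) A).symm.finrank_eq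
  have h3 := hgood (p.adicCompletionIntegers M) (p.adicCompletion M)
    (p.adicCompletion M ⊗[R] A) N g f hAz m hm h2
  have h4 : Nonempty (A →ₐ[R] Matrix (Fin m) (Fin m) (p.adicCompletion M)) := rep_of_tensor h3
  exact rep_to_tensor h4

/-- a common extension -/
theorem exists_common (M : Type) [Field M] [NumberField M] {r : ℕ} (L : Fin r → Type)
    [∀ i, Field (L i)] [∀ i, NumberField (L i)] [∀ i, Algebra M (L i)] :
    ∃ (L' : Type) (_ : Field L') (_ : NumberField L') (_ : Algebra M L'),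
      ∀ i, Nonempty (L i →ₐ[M] L') := by
  have hfin : ∀ i, FiniteDimensional M (L i) := by
    intro i
    have : IsScalarTower ℚ M (L i) := inferInstance
    exact Module.Finite.right ℚ M (L i)
  let f : ∀ i, L i →ₐ[M] AlgebraicClosure M := fun i => IsAlgClosed.lift
  let E : IntermediateField M (AlgebraicClosure M) := ⨆ i, (f i).fieldRange
  have hfr : ∀ i, FiniteDimensional M (f i).fieldRange := fun i =>
    Module.Finite.equiv (AlgEquiv.ofInjectiveField (f i)).toLinearEquiv
  have hE : FiniteDimensional M E := IntermediateField.finiteDimensional_iSup_of_finite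
  have hN : NumberField E := NumberField.of_module_finite M E
  refine ⟨E, inferInstance, hN, inferInstance, fun i => ⟨?_⟩⟩
  have hle : (f i).fieldRange ≤ E := le_iSup (fun i => (f i).fieldRange) i
  exact (IntermediateField.inclusion hle).comp (AlgEquiv.ofInjectiveField (f i)).toAlgHom

/-- **points with a common splitting extension** -/
theorem hpt_azumaya (hloc : LocNF) (hglob : GlobNF) (hgood : GoodNF) (K : Type) [Field K]
    {R : Type} [CommRing R] [IsDomain R] [Algebra K R] (M : Type) [Field M] [NumberField M]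
    [Algebra K M] {r : ℕ} (A : Fin r → Type)
    [∀ i, Ring (A i)] [∀ i, Algebra R (A i)] [∀ i, IsAzumaya R (A i)] (m : Fin r → ℕ)
    (hm0 : ∀ i, 0 < m i) (Λ : Finset ℕ) (hΛ : ∀ i, (m i).primeFactors ⊆ Λ)
    (hSP : ∀ G : Finset R, ∃ J : ℕ, ∀ f : R, f ≠ 0 → ∃ φ : R →ₐ[K] M, φ f ≠ 0 ∧
      ∀ p : Pl M, Bad Λ J p → ∀ g ∈ G, vl p (φ g) ≤ 1)
    (hm : ∀ i, Module.finrank (FractionRing R) (FractionRing R ⊗[R] A i) = m i ^ 2)
    (hζ : ∀ i, ∀ l : ℕ, l.Prime → l ∣ m i → ∃ ζ : M, IsPrimitiveRoot ζ l)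
    (h4 : ∃ i : M, IsPrimitiveRoot i 4) :
    ∃ (L : Type) (_ : Field L) (_ : NumberField L) (_ : Algebra M L) (_ : Algebra K L)
      (_ : IsScalarTower K M L), ∀ f : R, f ≠ 0 → ∃ φ : R →ₐ[K] L, φ f ≠ 0 ∧
        ∀ i, ∃ ρ : A i →+* Matrix (Fin (m i)) (Fin (m i)) L,
          Pool.Agent.Helper35.BR.Over (φ : R →+* L) ρ := by
  classical
  have haz : ∀ i, Az R (A i) := fun i => Pool.Agent.Helper28.BR.az_of_azumaya
  choose G hG using fun i => rep_good hgood (haz i) (m i) (hm0 i)
  obtain ⟨J, hJ⟩ := hSP (Finset.univ.biUnion G)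
  choose L' iL' nL' aL' hL' using fun i => alg_br hloc hglob M (m i) J (hm0 i) (hζ i)
    (fun _ => h4)
  obtain ⟨L, iL, nL, aL, hL⟩ := exists_common M L'
  let aK : Algebra K L := ((algebraMap M L).comp (algebraMap K M)).toAlgebra
  have htow : IsScalarTower K M L := IsScalarTower.of_algebraMap_eq fun _ => rfl
  refine ⟨L, iL, nL, aL, aK, htow, fun f hf => ?_⟩
  obtain ⟨φ, hφf, hφ⟩ := hJ f hf
  let aRM : Algebra R M := (φ : R →+* M).toAlgebra
  refine ⟨(IsScalarTower.toAlgHom K M L).comp φ, ?_, fun i => ?_⟩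
  · have : algebraMap M L (φ f) ≠ 0 := by
      rwa [Ne, map_eq_zero_iff _ (algebraMap M L).injective]
    exact this
  have h1 : Az M (M ⊗[R] A i) := Pool.Agent.Helper62.BR.az_baseChange (haz i)
  have h2 : Module.finrank M (M ⊗[R] A i) = m i ^ 2 := by
    rw [finrank_point M (FractionRing R), hm]
  have hnt : Nontrivial (M ⊗[R] A i) := by
    apply Module.nontrivial_of_finrank_pos (R := M)
    rw [h2]
    exact pow_pos (hm0 i) 2
  obtain ⟨hs, hc⟩ := Pool.Agent.Helper62.BR.simple_of_az h1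
  have h3 := hL' i (M ⊗[R] A i) h2 (by
    intro p hp
    refine hG i M h2 p fun g hg => hφ p ?_ g (Finset.mem_biUnion.2 ⟨i, Finset.mem_univ i, hg⟩)
    obtain ⟨l, hl, hl'⟩ := hp
    exact ⟨l, hΛ i hl, hl'⟩)
  obtain ⟨ρ⟩ := h3
  obtain ⟨ι⟩ := hL i
  let ρ' : (M ⊗[R] A i) →ₐ[M] Matrix (Fin (m i)) (Fin (m i)) L := (ι.mapMatrix).comp ρ
  refine ⟨(ρ' : (M ⊗[R] A i) →+* _).comp
    (Algebra.TensorProduct.includeRight : A i →ₐ[R] M ⊗[R] A i), ?_⟩
  intro c
  have h5 : (Algebra.TensorProduct.includeRight : A i →ₐ[R] M ⊗[R] A i) (algebraMap R (A i) c) =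
      algebraMap M (M ⊗[R] A i) (φ c) := by
    rw [AlgHom.commutes]
    rfl
  change ρ' ((Algebra.TensorProduct.includeRight : A i →ₐ[R] M ⊗[R] A i)
    (algebraMap R (A i) c)) = _
  rw [h5, AlgHom.commutes]
  rfl

end Pool.Agent.Helper47.BR
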